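import Mathlib
import Pool.Agent.H50.KingB

set_option autoImplicit false

open Pool.Agent.H50.PathCount Pool.Agent.H50.King

namespace Pool.Agent.Results.MP_407208_co.Counter

/-- a board: the bijection sending each label to the cell carrying it -/
abbrev Board (n : ℕ) : Type := Fin (n * n) ≃ Fin n × Fin n

/-- adjacency of cells in the king's graph -/
def KAdj {n : ℕ} (c d : Fin n × Fin n) : Prop :=
  c ≠ d ∧ c.1.1 ≤ d.1.1 + 1 ∧ d.1.1 ≤ c.1.1 + 1 ∧ c.2.1 ≤ d.2.1 + 1 ∧ d.2.1 ≤ c.2.1 + 1

/-- the `k`-letter words of a board -/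
def W {n : ℕ} (k : ℕ) (B : Board n) : Set (List (Fin (n * n))) :=
  {l | l.length = k ∧ l.Nodup ∧ l.IsChain fun x y => KAdj (B x) (B y)}

/-- boards with the same words of every length at least two -/
def Equivalent {n : ℕ} (B B' : Board n) : Prop := ∀ k, 2 ≤ k → W k B = W k B'

/-- a corner cell -/
def Corner {n : ℕ} (c : Fin n × Fin n) : Prop :=
  (c.1.1 = 0 ∨ c.1.1 = n - 1) ∧ (c.2.1 = 0 ∨ c.2.1 = n - 1)

/-- two cells sharing an edge -/
def Side {n : ℕ} (c d : Fin n × Fin n) : Prop :=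
  (c.1 = d.1 ∧ (c.2.1 + 1 = d.2.1 ∨ d.2.1 + 1 = c.2.1)) ∨
    (c.2 = d.2 ∧ (c.1.1 + 1 = d.1.1 ∨ d.1.1 + 1 = c.1.1))

/-- `B'` arises from `B` by exchanging the labels of a corner cell and of a non-corner cell
sharing an edge with it -/
def CornerSideSwap {n : ℕ} (B B' : Board n) : Prop :=
  ∃ c d, Corner c ∧ ¬ Corner d ∧ Side c d ∧ B' = B.trans (Equiv.swap c d)

instance {n : ℕ} (c d : Fin n × Fin n) : Decidable (KAdj c d) := by unfold KAdj; infer_instance
instance {n : ℕ} (c : Fin n × Fin n) : Decidable (Corner c) := by unfold Corner; infer_instance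
instance {n : ℕ} (c d : Fin n × Fin n) : Decidable (Side c d) := by unfold Side; infer_instance

theorem count (B B' : Board 4) (a b : Fin 16) (φ : Fin 16 → Fin 16) (hφ : Function.Injective φ)
    (h : ∀ x y : Fin 16, (KAdj (B x) (B y) ∧ KAdj (B' x) (B' y)) ↔ com a b (φ x) (φ y) = true) :
    (W 12 B ∩ W 12 B').ncard = total (com a b) 49 11 := by
  rw [← total_eq _ _ _ (by norm_num)]
  have hs : Function.Surjective φ := Finite.surjective_of_injective hφ
  refine Set.ncard_congr (fun l _ => l.map φ) ?_ (fun l t _ _ e => List.map_injective_iff.2 hφ e) ?_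
  · rintro l ⟨⟨h1, h2, h3⟩, -, -, h4⟩
    refine ⟨by simpa using h1, h2.map hφ, List.isChain_map φ |>.2 ?_⟩
    rw [List.isChain_iff_getElem] at h3 h4 ⊢
    exact fun i hi => (h _ _).1 ⟨h3 i hi, h4 i hi⟩
  · rintro t ⟨h1, h2, h3⟩
    obtain ⟨l, rfl⟩ := List.map_surjective_iff.2 hs t
    rw [List.isChain_map] at h3
    have h4 : l.length = 12 := by simpa using h1
    exact ⟨l, ⟨⟨h4, h2.of_map _, h3.imp fun x y k => ((h x y).2 k).1⟩,
      h4, h2.of_map _, h3.imp fun x y k => ((h x y).2 k).2⟩, rfl⟩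

/-- the symmetries of the square -/
def sym (s t u : Bool) (x : Fin 16) : Fin 16 :=
  let i := if s then 3 - x.1 / 4 else x.1 / 4
  let j := if t then 3 - x.1 % 4 else x.1 % 4
  Fin.ofNat 16 (if u then 4 * j + i else 4 * i + j)

/-- On the `4 × 4` board, for `12`-letter words, some board not equivalent to `B` has more words
in common with `B` than every corner-side swap of `B`. -/
theorem result : ∃ n, 4 ≤ n ∧ ∃ k, 2 ≤ k ∧ ∃ B B' : Board n, ¬ Equivalent B B' ∧
    (∃ C, CornerSideSwap B C) ∧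
    ∀ C, CornerSideSwap B C → (W k B ∩ W k C).ncard < (W k B ∩ W k B').ncard := by
  refine ⟨4, le_rfl, 12, by norm_num, finProdFinEquiv.symm,
    finProdFinEquiv.symm.trans (Equiv.swap (0, 1) (1, 1)), fun h => ?_,
    ⟨_, (0, 0), (0, 1), by decide, by decide, by decide, rfl⟩, ?_⟩
  · have h1 : [5, 8] ∈ W (n := 4) 2 finProdFinEquiv.symm := by
      refine ⟨rfl, by decide, ?_⟩
      rw [List.isChain_pair]
      decide
    rw [h 2 le_rfl] at h1
    have h2 := h1.2.2
    rw [List.isChain_pair] at h2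
    revert h2
    decide
  · rintro C ⟨c, d, hc, hd, hs, rfl⟩
    have key : ∀ c d : Fin 4 × Fin 4, Corner c → ¬ Corner d → Side c d → ∃ s t u : Bool,
        ∀ x y : Fin 16, (KAdj ((finProdFinEquiv.symm : Board 4) x) (finProdFinEquiv.symm y) ∧
          KAdj (Equiv.swap c d ((finProdFinEquiv.symm : Board 4) x))
            (Equiv.swap c d (finProdFinEquiv.symm y))) ↔
          com 0 1 (sym s t u x) (sym s t u y) = true := by
      decide +kernel
    obtain ⟨s, t, u, h⟩ := key c d hc hd hs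
    have hinj : ∀ s t u : Bool, ∀ x y, sym s t u x = sym s t u y → x = y := by decide +kernel
    rw [count _ _ 0 1 (sym s t u) (hinj s t u) h, tA,
      count _ _ 1 5 id Function.injective_id (by decide +kernel), tB]
    norm_num

end Pool.Agent.Results.MP_407208_co.Counter
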